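import Pool.Agent.helper84.VQ.Spec4a

/-!
# Project VQ (MP_07c750_an), block 4a, row AR4: asymptotics of the parameters
-/

set_option autoImplicit false

open scoped MatrixGroups ContDiff Topology UpperHalfPlane ComplexConjugate ENNReal
open UpperHalfPlane MeasureTheory Filter Set

namespace Pool.Agent.VQ

open Pool.Agent.RS
open Pool.Agent.VQE (nm)

noncomputable section

theorem AR4_neg (a c : ℝ) (ha : a < 0) (hc : 0 < c) : ∀ᶠ R : ℝ in atTop, R ^ a ≤ c := by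
  have h := tendsto_rpow_neg_atTop (y := -a) (by linarith)
  rw [neg_neg] at h
  exact (h.eventually (gt_mem_nhds hc)).mono fun R hR => le_of_lt hR

theorem AR4_pos (a c : ℝ) (ha : 0 < a) : ∀ᶠ R : ℝ in atTop, c ≤ R ^ a :=
  (tendsto_rpow_atTop ha).eventually_ge_atTop c

theorem AR4_log (a c : ℝ) (ha : 0 < a) (hc : 0 < c) : ∀ᶠ R : ℝ in atTop, c * Real.log R ≤ R ^ a := by
  have h := (isLittleO_log_rpow_atTop ha).bound (show 0 < 1 / c by positivity)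
  filter_upwards [h, eventually_ge_atTop (1 : ℝ)] with R hR hR1
  have h1 : ‖R ^ a‖ = R ^ a := by
    rw [Real.norm_eq_abs, abs_of_nonneg (Real.rpow_nonneg (by linarith) a)]
  have h2 : ‖Real.log R‖ = Real.log R := by
    rw [Real.norm_eq_abs, abs_of_nonneg (Real.log_nonneg hR1)]
  rw [h1, h2] at hR
  calc c * Real.log R ≤ c * (1 / c * R ^ a) := mul_le_mul_of_nonneg_left hR hc.le
    _ = R ^ a := by field_simp

theorem AR4_proof : AR4_stmt := by
  intro A N K d hA hN hK hd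
  have he3 := hA.e3
  have hm1 : (1 : ℝ) ≤ A.m := by exact_mod_cast hA.m
  have hN1 : (1 : ℝ) ≤ N := by exact_mod_cast hN
  have hz := hA.z
  have hz1 := hA.z1
  have hz2 := hA.z2
  have hup := hA.up
  have htu := hA.tu
  have hz2pos : 0 < A.z2 := by linarith
  have hz2s : A.z2 ≤ 1 / 10 := by
    have : A.z2 ≤ A.m * A.z2 := by nlinarith
    linarith
  have he3s : A.e3 ≤ 1 := by
    have : A.e3 ≤ A.m * A.e3 := by nlinarith
    linarith
  have hC : 0 < 4 * K * N * (A.m + 1) * (N * A.m + 1) := by positivity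
  have ev : ∀ᶠ R : ℝ in atTop, 3 ≤ R ∧ 1 / A.e3 ≤ Real.log R ∧ 4 * K * N * (A.m + 1) * (N * A.m + 1) * Real.log R ≤ R ^ (A.z2 / 2) ∧
      R ^ (-(1 / 2) + A.z2) ≤ 1 / 100 ∧ R ^ (-(1 / 2) + 3 / 2 * A.z2) ≤ 1 / (10 * K) ∧ R ^ (-(1 / 4) : ℝ) ≤ d / 8 ∧
      K ≤ R ^ (4 * A.z2) ∧ 20 * (A.m + 1) ≤ R ^ (1 / 10 : ℝ) := by
    filter_upwards [eventually_ge_atTop (3 : ℝ), Real.tendsto_log_atTop.eventually_ge_atTop (1 / A.e3),
      AR4_log (A.z2 / 2) _ (by linarith) hC, AR4_neg (-(1 / 2) + A.z2) (1 / 100) (by linarith) (by norm_num),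
      AR4_neg (-(1 / 2) + 3 / 2 * A.z2) (1 / (10 * K)) (by linarith) (by positivity), AR4_neg (-(1 / 4)) (d / 8) (by norm_num) (by positivity),
      AR4_pos (4 * A.z2) K (by linarith), AR4_pos (1 / 10) (20 * (A.m + 1)) (by norm_num)] with R h1 h2 h3 h4 h5 h6 h7 h8
    exact ⟨h1, h2, h3, h4, h5, h6, h7, h8⟩
  obtain ⟨R0, hR0⟩ := eventually_atTop.1 ev
  refine ⟨max R0 3, le_max_right _ _, fun R hR => ?_⟩
  obtain ⟨h3, hlog, hb, hc, hd', he, hf, hg⟩ := hR0 R ((le_max_left _ _).trans hR)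
  have hRpos : 0 < R := by linarith
  have hR1 : 1 ≤ R := by linarith
  have hlog1 : 1 ≤ Real.log R := by
    have h4 : 1 ≤ 1 / A.e3 := by
      rw [le_div_iff₀ he3]
      linarith
    linarith
  have hσ : 1 ≤ A.e3 * Real.log R := by
    rw [div_le_iff₀ he3] at hlog
    linarith
  have hr0 : 0 < A.r R := Real.rpow_pos_of_pos hRpos _
  have hk1 : 1 ≤ ⌊A.e3 * Real.log R⌋₊ := Nat.one_le_floor_iff _ |>.2 hσ
  have hk1' : (1 : ℝ) ≤ (⌊A.e3 * Real.log R⌋₊ : ℝ) := by exact_mod_cast hk1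
  have hk2 : (⌊A.e3 * Real.log R⌋₊ : ℝ) ≤ A.e3 * Real.log R := Nat.floor_le (by linarith)
  have hk3 : A.e3 * Real.log R < (⌊A.e3 * Real.log R⌋₊ : ℝ) + 1 := Nat.lt_floor_add_one _
  have hk0 : (0 : ℝ) < (⌊A.e3 * Real.log R⌋₊ : ℝ) := by linarith
  have hk4 : (⌊A.e3 * Real.log R⌋₊ : ℝ) ≤ Real.log R := by nlinarith
  refine ⟨⌊A.e3 * Real.log R⌋₊, A.e3 * Real.log R / ⌊A.e3 * Real.log R⌋₊, 4 * N * (A.m + 1) * A.r R, hk1, ?_, ?_, ?_, hr0, hc, by positivity, ?_, ?_, ?_, hd', ?_, ?_, ?_⟩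
  · rw [le_div_iff₀ hk0]
    linarith
  · rw [div_le_iff₀ hk0]
    linarith
  · show A.e3 * Real.log R = _
    field_simp
  · have h4 : 3 ≤ 4 * N * ((A.m : ℝ) + 1) := by nlinarith
    exact mul_le_mul_of_nonneg_right h4 hr0.le
  · have h4 : 0 ≤ (N : ℝ) * ((A.m : ℝ) + 1) * A.r R := by positivity
    nlinarith
  · have h5 : (((N * (A.m * ⌊A.e3 * Real.log R⌋₊) : ℕ) : ℝ) + 1) ≤ (N * A.m + 1) * Real.log R := by
      push_cast
      have h6 : (N : ℝ) * (A.m * (⌊A.e3 * Real.log R⌋₊ : ℝ)) ≤ N * A.m * Real.log R := by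
        rw [← mul_assoc]
        exact mul_le_mul_of_nonneg_left hk4 (by positivity)
      linarith
    have h7 : R ^ (-(1 / 2) + 3 / 2 * A.z2) = A.r R * R ^ (A.z2 / 2) := by
      show _ = R ^ (-(1 / 2) + A.z2) * R ^ (A.z2 / 2)
      rw [← Real.rpow_add hRpos]
      congr 1
      ring
    rw [h7]
    calc K * ((((N * (A.m * ⌊A.e3 * Real.log R⌋₊) : ℕ) : ℝ) + 1) * (4 * N * (A.m + 1) * A.r R)) ≤
        K * (((N * A.m + 1) * Real.log R) * (4 * N * (A.m + 1) * A.r R)) :=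
          mul_le_mul_of_nonneg_left (mul_le_mul_of_nonneg_right h5 (by positivity)) (by linarith)
      _ = A.r R * (4 * K * N * (A.m + 1) * (N * A.m + 1) * Real.log R) := by ring
      _ ≤ A.r R * R ^ (A.z2 / 2) := mul_le_mul_of_nonneg_left hb hr0.le
  · intro E hE
    have hE1 : -(2 * R ^ (-(1 / 4) : ℝ)) ≤ E := hE.1
    have hE2 : E ≤ 2 * R ^ (-(1 / 4) : ℝ) := hE.2
    rw [abs_le]
    constructor
    · linarith
    · linarith
  · have h4 : (R ^ (-(1 / 2) + 3 / 2 * A.z2)) ^ 4 = R ^ (-2 + 6 * A.z2) := by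
      rw [← Real.rpow_natCast, ← Real.rpow_mul hRpos.le]
      congr 1
      push_cast
      ring
    have h5 : R ^ (-2 + 10 * A.z2) = R ^ (4 * A.z2) * R ^ (-2 + 6 * A.z2) := by
      rw [← Real.rpow_add hRpos]
      congr 1
      ring
    rw [h4, h5]
    exact mul_le_mul_of_nonneg_right hf (Real.rpow_nonneg hRpos.le _)
  · have h4 : Real.exp (11 / 10 * A.tu R) = R ^ (11 / 10 * (A.m * A.e3)) := by
      rw [Real.rpow_def_of_pos hRpos]
      congr 1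
      show 11 / 10 * (A.m * (A.e3 * Real.log R)) = _
      ring
    have h5 : R ^ (-(1 / 5) : ℝ) = R ^ (3 / 10 - A.z2 - 11 / 10 * (A.m * A.e3)) * (A.r R * R ^ (11 / 10 * (A.m * A.e3))) := by
      show _ = _ * (R ^ (-(1 / 2) + A.z2) * _)
      rw [← Real.rpow_add hRpos, ← Real.rpow_add hRpos]
      congr 1
      ring
    have h6 : R ^ (1 / 10 : ℝ) ≤ R ^ (3 / 10 - A.z2 - 11 / 10 * (A.m * A.e3)) := Real.rpow_le_rpow_of_exponent_le hR1 (by linarith)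
    rw [h4, h5]
    have h7 : 0 ≤ A.r R * R ^ (11 / 10 * (A.m * A.e3)) := mul_nonneg hr0.le (Real.rpow_nonneg hRpos.le _)
    calc 20 * (A.m + 1) * A.r R * R ^ (11 / 10 * (A.m * A.e3)) = 20 * (A.m + 1) * (A.r R * R ^ (11 / 10 * (A.m * A.e3))) := by ring
      _ ≤ R ^ (3 / 10 - A.z2 - 11 / 10 * (A.m * A.e3)) * (A.r R * R ^ (11 / 10 * (A.m * A.e3))) := mul_le_mul_of_nonneg_right (hg.trans h6) h7

end

end Pool.Agent.VQ
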