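import Pool.Agent.helper11.VQ.Spec3c
import Pool.Agent.helper58.RPQ.MFC

/-!
# Project VQ (MP_07c750_an), row MFV: change of the measure
-/

set_option autoImplicit false

open scoped MatrixGroups ContDiff Topology UpperHalfPlane ComplexConjugate ENNReal
open UpperHalfPlane MeasureTheory Filter Set

namespace Pool.Agent.VQ

open Pool.Agent.RS
open Pool.Agent.RPQ (CEig mean VV IsOp IsMul OProj wrd PJ nst mks MO Net Cl CkB PN upd Eqd)

noncomputable section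

theorem MFV_exp {M x y : ℝ} (hx : |x| ≤ M) (hy : |y| ≤ M) : |Real.exp x - Real.exp y| ≤ Real.exp M * |x - y| := by
  have key : ∀ x y : ℝ, |x| ≤ M → y ≤ x → |Real.exp x - Real.exp y| ≤ Real.exp M * |x - y| := by
    intro x y hx hxy
    have h1 : Real.exp y ≤ Real.exp x := Real.exp_le_exp.2 hxy
    rw [abs_of_nonneg (by linarith), abs_of_nonneg (by linarith)]
    have h2 : Real.exp x - Real.exp y = Real.exp x * (1 - Real.exp (y - x)) := by
      rw [mul_sub, mul_one, ← Real.exp_add]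
      congr 2
      ring
    have h3 : 1 - Real.exp (y - x) ≤ x - y := by linarith [Real.add_one_le_exp (y - x)]
    rw [h2]
    have h4 : Real.exp x ≤ Real.exp M := Real.exp_le_exp.2 ((le_abs_self x).trans hx)
    calc Real.exp x * (1 - Real.exp (y - x)) ≤ Real.exp x * (x - y) := mul_le_mul_of_nonneg_left h3 (Real.exp_pos x).le
      _ ≤ Real.exp M * (x - y) := mul_le_mul_of_nonneg_right h4 (by linarith)
  rcases le_total y x with h | h
  · exact key x y hx h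
  · rw [abs_sub_comm, abs_sub_comm x y]
    exact key y x hy h

/-- the hypothesis for all Lipschitz functions -/
theorem MFV_lip {Γ : Subgroup SL(2, ℝ)} (hΓ : QU.SurfaceGroup Γ) {F : Set ℍ} (hF : QU.NiceDom Γ F) {D e : ℝ} (hD : 1 ≤ D) {φ : ℍ → ℂ} (hφ : InvC Γ φ)
    (H : ∀ h : ℍ → ℝ, QU.Inv Γ h → (∀ z w, |h z - h w| ≤ dist z w) → ∃ (c : ℝ) (h' : ℍ → ℝ), TF Γ h' ∧ (∀ z, |(h z - c) / D - h' z| ≤ e) ∧
      |(∫ z in F, h' z * ‖φ z‖ ^ 2) - mean F h' * nn F φ| ≤ e * nn F φ)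
    {k : ℍ → ℝ} (hk : QU.Inv Γ k) {L : ℝ} (hL : 0 < L) (hkL : ∀ z w, |k z - k w| ≤ L * dist z w) :
    |(∫ z in F, k z * ‖φ z‖ ^ 2) - (∫ z in F, k z) / (volume F).toReal * nn F φ| ≤ 3 * L * D * e * nn F φ := by
  have hV : 0 < (volume F).toReal := ENNReal.toReal_pos (QU.A_DOB Γ F hΓ hF).2.2.1.ne' (QU.A_DOB Γ F hΓ hF).2.2.2.1.ne
  have hD0 : 0 < D := by linarith
  have iP : QU.Inv Γ (fun z => ‖φ z‖ ^ 2) := ⟨hφ.1.norm.pow 2, fun γ z => by
    show ‖φ (γ • z)‖ ^ 2 = ‖φ z‖ ^ 2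
    rw [hφ.2 γ z]⟩
  have iC : ∀ k : ℝ, QU.Inv Γ (fun _ : ℍ => k) := fun k => ⟨continuous_const, fun _ _ => rfl⟩
  have hP0 : ∀ z, 0 ≤ ‖φ z‖ ^ 2 := fun z => by positivity
  obtain ⟨c, h', hh', hr, hq⟩ := H (fun z => k z / L) ⟨hk.1.div_const L, fun γ z => by
    show k (γ • z) / L = k z / L
    rw [hk.2 γ z]⟩ (fun z w => by
    show |k z / L - k w / L| ≤ dist z w
    rw [← sub_div, abs_div, abs_of_pos hL, div_le_iff₀ hL, mul_comm]
    exact hkL z w)
  set r : ℍ → ℝ := fun z => (k z / L - c) / D - h' z with hrdef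
  have ir : QU.Inv Γ r := ⟨(((hk.1.div_const L).sub continuous_const).div_const D).sub hh'.inv.1, fun γ z => by
    show (k (γ • z) / L - c) / D - h' (γ • z) = (k z / L - c) / D - h' z
    rw [hk.2 γ z, hh'.inv.2 γ z]⟩
  have hdec : ∀ z, k z = L * c + L * D * (h' z + r z) := fun z => by
    show k z = L * c + L * D * (h' z + ((k z / L - c) / D - h' z))
    field_simp
    ring
  have hVint : ∫ z in F, (1 : ℝ) = (volume F).toReal := by
    rw [setIntegral_const, smul_eq_mul, mul_one]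
    rfl
  have hnn : nn F φ = ∫ z in F, ‖φ z‖ ^ 2 := rfl
  have hN0 : 0 ≤ nn F φ := integral_nonneg fun z => hP0 z
  have I1 : ∫ z in F, k z * ‖φ z‖ ^ 2 = L * c * nn F φ + L * D * ((∫ z in F, h' z * ‖φ z‖ ^ 2) + ∫ z in F, r z * ‖φ z‖ ^ 2) := by
    rw [hnn, ← RPQ.MFC_lin _ _ _ _ (L * c) (L * D) (RPQ.MFC_int hΓ hF iP) (RPQ.MFC_int hΓ hF (RPQ.MFC_mul hh'.inv iP)) (RPQ.MFC_int hΓ hF (RPQ.MFC_mul ir iP))]
    refine integral_congr_ae (Filter.Eventually.of_forall fun z => ?_)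
    show k z * ‖φ z‖ ^ 2 = L * c * ‖φ z‖ ^ 2 + L * D * (h' z * ‖φ z‖ ^ 2 + r z * ‖φ z‖ ^ 2)
    rw [hdec z]
    ring
  have I2 : ∫ z in F, k z = L * c * (volume F).toReal + L * D * ((∫ z in F, h' z) + ∫ z in F, r z) := by
    rw [← hVint, ← RPQ.MFC_lin _ _ _ _ (L * c) (L * D) (RPQ.MFC_int hΓ hF (iC 1)) (RPQ.MFC_int hΓ hF hh'.inv) (RPQ.MFC_int hΓ hF ir)]
    refine integral_congr_ae (Filter.Eventually.of_forall fun z => ?_)
    show k z = L * c * 1 + L * D * (h' z + r z)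
    rw [mul_one]
    exact hdec z
  have b1 : |∫ z in F, r z * ‖φ z‖ ^ 2| ≤ e * nn F φ := by
    rw [hnn, ← integral_const_mul]
    refine RPQ.MFC_abs hΓ hF (RPQ.MFC_mul (iC e) iP) fun z => ?_
    rw [abs_mul, abs_of_nonneg (hP0 z)]
    exact mul_le_mul_of_nonneg_right (hr z) (hP0 z)
  have b2 : |∫ z in F, r z| ≤ e * (volume F).toReal := by
    rw [← hVint, ← integral_const_mul]
    refine RPQ.MFC_abs hΓ hF (RPQ.MFC_mul (iC e) (iC 1)) fun z => ?_
    rw [mul_one]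
    exact hr z
  have b3 : |(∫ z in F, r z) / (volume F).toReal * nn F φ| ≤ e * nn F φ := by
    rw [abs_mul, abs_of_nonneg hN0, abs_div, abs_of_pos hV]
    exact mul_le_mul_of_nonneg_right ((div_le_iff₀ hV).2 b2) hN0
  have e1 : (∫ z in F, k z * ‖φ z‖ ^ 2) - (∫ z in F, k z) / (volume F).toReal * nn F φ =
      L * D * (((∫ z in F, h' z * ‖φ z‖ ^ 2) - mean F h' * nn F φ) + (∫ z in F, r z * ‖φ z‖ ^ 2) - (∫ z in F, r z) / (volume F).toReal * nn F φ) := by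
    rw [I1, I2]
    show _ = L * D * (((∫ z in F, h' z * ‖φ z‖ ^ 2) - (∫ z in F, h' z) / (volume F).toReal * nn F φ) + (∫ z in F, r z * ‖φ z‖ ^ 2) -
      (∫ z in F, r z) / (volume F).toReal * nn F φ)
    field_simp
    ring
  rw [e1, abs_mul, abs_of_pos (mul_pos hL hD0)]
  have b4 : |((∫ z in F, h' z * ‖φ z‖ ^ 2) - mean F h' * nn F φ) + (∫ z in F, r z * ‖φ z‖ ^ 2) - (∫ z in F, r z) / (volume F).toReal * nn F φ| ≤ 3 * e * nn F φ := by
    have g1 := abs_le.1 hq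
    have g2 := abs_le.1 b1
    have g3 := abs_le.1 b3
    rw [abs_le]
    constructor <;> linarith [g1.1, g1.2, g2.1, g2.2, g3.1, g3.2]
  calc L * D * |((∫ z in F, h' z * ‖φ z‖ ^ 2) - mean F h' * nn F φ) + (∫ z in F, r z * ‖φ z‖ ^ 2) - (∫ z in F, r z) / (volume F).toReal * nn F φ|
      ≤ L * D * (3 * e * nn F φ) := mul_le_mul_of_nonneg_left b4 (mul_pos hL hD0).le
    _ = 3 * L * D * e * nn F φ := by ring

theorem MFV_proof : MFV_stmt := by
  intro Γ M D hΓ hM hD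
  obtain ⟨K, hK, hcov⟩ := hΓ.cocompact
  obtain ⟨b', hb'⟩ := (Metric.isBounded_iff_subset_closedBall I).1 hK.isBounded
  obtain ⟨b, hb0, hb⟩ : ∃ b : ℝ, 0 ≤ b ∧ ∀ z ∈ K, dist z I ≤ b :=
    ⟨max b' 0, le_max_right _ _, fun z hz => (Metric.mem_closedBall.1 (hb' hz)).trans (le_max_left _ _)⟩
  have hE0 : 0 < Real.exp M := Real.exp_pos M
  have hE1 : 1 ≤ Real.exp M := Real.one_le_exp hM
  obtain ⟨L, hLdef⟩ : ∃ L : ℝ, L = Real.exp M * (1 + (b + 1) * M) := ⟨_, rfl⟩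
  have hL1 : 1 ≤ L := by
    rw [hLdef]
    have : 1 ≤ 1 + (b + 1) * M := by nlinarith
    nlinarith
  have hL0 : 0 < L := by linarith
  refine ⟨3 * L * D * (1 + b) * Real.exp M, ?_, ?_⟩
  · have h1 : 1 ≤ L * D := one_le_mul_of_one_le_of_one_le hL1 hD
    have h2 : 1 ≤ L * D * (1 + b) := one_le_mul_of_one_le_of_one_le h1 (by linarith)
    have h3 : 1 ≤ L * D * (1 + b) * Real.exp M := one_le_mul_of_one_le_of_one_le h2 hE1
    nlinarith
  intro F F' f e φ hF hF' hf hfM hfL hφ he H h hh hlip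
  have hD0 : 0 < D := by linarith
  -- the same domain
  have hsame : ∀ g : ℍ → ℝ, (∀ (γ : Γ) z, g (γ • z) = g z) → ∫ z in F', g z = ∫ z in F, g z :=
    ((QU.A_DOB Γ F hΓ hF).2.2.2.2.1 F' (QU.A_DOB Γ F' hΓ hF').2.1).2
  have iE : QU.Inv Γ (fun z => Real.exp (f z)) := ⟨Real.continuous_exp.comp hf.1, fun γ z => by
    show Real.exp (f (γ • z)) = Real.exp (f z)
    rw [hf.2 γ z]⟩
  have iP : QU.Inv Γ (fun z => ‖φ z‖ ^ 2) := ⟨hφ.1.norm.pow 2, fun γ z => by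
    show ‖φ (γ • z)‖ ^ 2 = ‖φ z‖ ^ 2
    rw [hφ.2 γ z]⟩
  have iC : ∀ k : ℝ, QU.Inv Γ (fun _ : ℍ => k) := fun k => ⟨continuous_const, fun _ _ => rfl⟩
  have iPE := RPQ.MFC_mul iP iE
  have ihc : QU.Inv Γ (fun z => h z - h I) := ⟨hh.1.sub continuous_const, fun γ z => by
    show h (γ • z) - h I = h z - h I
    rw [hh.2 γ z]⟩
  rw [hsame (fun z => h z * ‖φ z‖ ^ 2 * Real.exp (f z)) (RPQ.MFC_mul (RPQ.MFC_mul hh iP) iE).2, hsame (fun z => h z * Real.exp (f z)) (RPQ.MFC_mul hh iE).2,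
    hsame (fun z => Real.exp (f z)) iE.2, hsame (fun z => ‖φ z‖ ^ 2 * Real.exp (f z)) iPE.2]
  have hP0 : ∀ z, 0 ≤ ‖φ z‖ ^ 2 := fun z => by positivity
  have hEp : ∀ z, 0 < Real.exp (f z) := fun z => Real.exp_pos _
  have hEM : ∀ z, Real.exp (f z) ≤ Real.exp M := fun z => Real.exp_le_exp.2 ((le_abs_self _).trans (hfM z))
  have hV : 0 < (volume F).toReal := ENNReal.toReal_pos (QU.A_DOB Γ F hΓ hF).2.2.1.ne' (QU.A_DOB Γ F hΓ hF).2.2.2.1.ne
  have hVint : ∫ z in F, (1 : ℝ) = (volume F).toReal := by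
    rw [setIntegral_const, smul_eq_mul, mul_one]
    rfl
  -- the oscillation of `h`
  have hosc : ∀ z, |h z - h I| ≤ b := by
    intro z
    obtain ⟨γ, hγ⟩ := hcov z
    rw [← hh.2 γ z]
    exact (hlip _ _).trans (hb _ hγ)
  -- Lipschitz constants
  have ik1 := RPQ.MFC_mul ihc iE
  have hk1 : ∀ z w, |(h z - h I) * Real.exp (f z) - (h w - h I) * Real.exp (f w)| ≤ L * dist z w := by
    intro z w
    have e1 : (h z - h I) * Real.exp (f z) - (h w - h I) * Real.exp (f w) = (h z - h w) * Real.exp (f z) + (h w - h I) * (Real.exp (f z) - Real.exp (f w)) := by ring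
    have d0 : 0 ≤ dist z w := dist_nonneg
    have t1 : |(h z - h w) * Real.exp (f z)| ≤ dist z w * Real.exp M := by
      rw [abs_mul, abs_of_pos (hEp z)]
      exact mul_le_mul (hlip z w) (hEM z) (hEp z).le d0
    have t2 : |(h w - h I) * (Real.exp (f z) - Real.exp (f w))| ≤ b * (Real.exp M * (M * dist z w)) := by
      rw [abs_mul]
      refine mul_le_mul (hosc w) ?_ (abs_nonneg _) hb0
      exact (MFV_exp (hfM z) (hfM w)).trans (mul_le_mul_of_nonneg_left (hfL z w) hE0.le)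
    rw [e1]
    refine (abs_add_le _ _).trans ((add_le_add t1 t2).trans ?_)
    rw [hLdef]
    have t3 : 0 ≤ Real.exp M * M * dist z w := by positivity
    nlinarith
  have hk2 : ∀ z w, |Real.exp (f z) - Real.exp (f w)| ≤ L * dist z w := by
    intro z w
    have d0 : 0 ≤ dist z w := dist_nonneg
    refine (MFV_exp (hfM z) (hfM w)).trans ((mul_le_mul_of_nonneg_left (hfL z w) hE0.le).trans ?_)
    rw [hLdef]
    have t3 : 0 ≤ Real.exp M * (b * M) * dist z w := by positivity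
    have t4 : 0 ≤ Real.exp M * dist z w := by positivity
    nlinarith
  have key1 := MFV_lip hΓ hF hD hφ H ik1 hL0 hk1
  have key2 := MFV_lip hΓ hF hD hφ H iE hL0 hk2
  -- names
  obtain ⟨N, hN⟩ : ∃ N : ℝ, N = nn F φ := ⟨_, rfl⟩
  obtain ⟨V, hVd⟩ : ∃ V : ℝ, V = (volume F).toReal := ⟨_, rfl⟩
  obtain ⟨T, hT⟩ : ∃ T : ℝ, T = ∫ z in F, Real.exp (f z) := ⟨_, rfl⟩
  obtain ⟨P, hP⟩ : ∃ P : ℝ, P = ∫ z in F, ‖φ z‖ ^ 2 * Real.exp (f z) := ⟨_, rfl⟩
  obtain ⟨A, hA⟩ : ∃ A : ℝ, A = ∫ z in F, (h z - h I) * Real.exp (f z) * ‖φ z‖ ^ 2 := ⟨_, rfl⟩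
  obtain ⟨S, hS⟩ : ∃ S : ℝ, S = ∫ z in F, (h z - h I) * Real.exp (f z) := ⟨_, rfl⟩
  have hP' : ∫ z in F, Real.exp (f z) * ‖φ z‖ ^ 2 = P := by
    rw [hP]
    exact integral_congr_ae (Filter.Eventually.of_forall fun z => mul_comm _ _)
  rw [← hA, ← hS, ← hN, ← hVd] at key1
  rw [hP', ← hT, ← hN, ← hVd] at key2
  rw [← hVd] at hV
  have hN0 : 0 ≤ N := by
    rw [hN]
    exact integral_nonneg fun z => hP0 z
  have hem : ∀ z, 1 ≤ Real.exp M * Real.exp (f z) := by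
    intro z
    rw [← Real.exp_add]
    exact Real.one_le_exp (by linarith [(abs_le.1 (hfM z)).1])
  have hNP : N ≤ Real.exp M * P := by
    rw [hN, hP, ← integral_const_mul]
    refine RPQ.MFC_mono hΓ hF iP (RPQ.MFC_mul (iC (Real.exp M)) iPE) fun z => ?_
    have := mul_le_mul_of_nonneg_left (hem z) (hP0 z)
    linarith
  have hT0 : 0 < T := by
    have h1 : V ≤ Real.exp M * T := by
      rw [hVd, hT, ← hVint, ← integral_const_mul]
      exact RPQ.MFC_mono hΓ hF (iC 1) (RPQ.MFC_mul (iC (Real.exp M)) iE) fun z => hem z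
    by_contra h0
    push Not at h0
    have : Real.exp M * T ≤ 0 := mul_nonpos_of_nonneg_of_nonpos hE0.le h0
    linarith
  have hST : |S / T| ≤ b := by
    rw [abs_div, abs_of_pos hT0, div_le_iff₀ hT0, hS, hT, ← integral_const_mul]
    refine RPQ.MFC_abs hΓ hF (RPQ.MFC_mul (iC b) iE) fun z => ?_
    rw [abs_mul, abs_of_pos (hEp z)]
    exact mul_le_mul_of_nonneg_right (hosc z) (hEp z).le
  have I1 : ∫ z in F, h z * ‖φ z‖ ^ 2 * Real.exp (f z) = A + h I * P := by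
    rw [hA, hP, ← integral_const_mul, ← integral_add (RPQ.MFC_int hΓ hF (RPQ.MFC_mul ik1 iP)) (RPQ.MFC_int hΓ hF (RPQ.MFC_mul (iC (h I)) iPE))]
    refine integral_congr_ae (Filter.Eventually.of_forall fun z => ?_)
    show h z * ‖φ z‖ ^ 2 * Real.exp (f z) = (h z - h I) * Real.exp (f z) * ‖φ z‖ ^ 2 + h I * (‖φ z‖ ^ 2 * Real.exp (f z))
    ring
  have I2 : ∫ z in F, h z * Real.exp (f z) = S + h I * T := by
    rw [hS, hT, ← integral_const_mul, ← integral_add (RPQ.MFC_int hΓ hF ik1) (RPQ.MFC_int hΓ hF (RPQ.MFC_mul (iC (h I)) iE))]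
    refine integral_congr_ae (Filter.Eventually.of_forall fun z => ?_)
    show h z * Real.exp (f z) = (h z - h I) * Real.exp (f z) + h I * Real.exp (f z)
    ring
  rw [I1, I2, ← hT, ← hP]
  have e2 : A + h I * P - (S + h I * T) / T * P = (A - S / V * N) - S / T * (P - T / V * N) := by
    field_simp
    ring
  have hP00 : 0 ≤ P := by
    rw [hP]
    exact integral_nonneg fun z => mul_nonneg (hP0 z) (hEp z).le
  have t1 : |S / T * (P - T / V * N)| ≤ b * (3 * L * D * e * N) := by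
    rw [abs_mul]
    exact mul_le_mul hST key2 (abs_nonneg _) hb0
  rw [e2]
  have t2 : |(A - S / V * N) - S / T * (P - T / V * N)| ≤ 3 * L * D * e * (1 + b) * N := by
    have g1 := abs_le.1 key1
    have g2 := abs_le.1 t1
    rw [abs_le]
    constructor
    · nlinarith [g1.1, g2.2]
    · nlinarith [g1.2, g2.1]
  have t3 : 0 ≤ 3 * L * D * e * (1 + b) := by positivity
  calc |(A - S / V * N) - S / T * (P - T / V * N)| ≤ 3 * L * D * e * (1 + b) * N := t2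
    _ ≤ 3 * L * D * e * (1 + b) * (Real.exp M * P) := mul_le_mul_of_nonneg_left hNP t3
    _ = 3 * L * D * (1 + b) * Real.exp M * e * P := by ring

end

end Pool.Agent.VQ
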