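import Pool.Agent.helper74.VQ.SpecA

/-!
# Project VQ (MP_07c750_an), row VPO: polar coordinates with the energy as radial variable
-/

set_option autoImplicit false

open scoped MatrixGroups ContDiff Topology UpperHalfPlane ComplexConjugate ENNReal
open UpperHalfPlane MeasureTheory Filter Set

namespace Pool.Agent.VQ

open Pool.Agent.RS

noncomputable section

/-- translation -/
theorem VPO_tr (G : ℝ → ENNReal) (c : ℝ) (hG : ∀ x, G (x + c) = G x) (a b : ℝ) :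
    ∫⁻ x in Ioc (a + c) (b + c), G x = ∫⁻ x in Ioc a b, G x := by
  have h1 : (fun x : ℝ => x + c) '' Ioc a b = Ioc (a + c) (b + c) := Set.image_add_const_Ioc c a b
  rw [← h1, lintegral_image_eq_lintegral_abs_deriv_mul measurableSet_Ioc (f := fun x : ℝ => x + c) (f' := fun _ => 1)
    (fun x _ => ((hasDerivAt_id x).add_const c).hasDerivWithinAt) (fun x _ y _ h => add_right_cancel h)]
  refine lintegral_congr fun x => ?_
  rw [abs_one, ENNReal.ofReal_one, one_mul, hG]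

theorem VPO_un (G : ℝ → ENNReal) {a b c : ℝ} (hab : a ≤ b) (hbc : b ≤ c) :
    ∫⁻ x in Ioc a c, G x = (∫⁻ x in Ioc a b, G x) + ∫⁻ x in Ioc b c, G x := by
  rw [← Ioc_union_Ioc_eq_Ioc hab hbc, lintegral_union measurableSet_Ioc (Ioc_disjoint_Ioc_of_le le_rfl)]

/-- the double angle -/
theorem VPO_dbl (G : ℝ → ENNReal) (hG : ∀ x, G (x + 2 * Real.pi) = G x) :
    ∫⁻ θ in Ioc 0 (2 * Real.pi), G (2 * θ) = ∫⁻ θ in Ioo (-Real.pi) Real.pi, G θ := by
  have hpi := Real.pi_pos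
  have h1 : ∫⁻ θ in Ioo (-Real.pi) Real.pi, G θ = ∫⁻ θ in Ioc 0 (2 * Real.pi), G θ := by
    have h2 : ∫⁻ θ in Ioo (-Real.pi) Real.pi, G θ = ∫⁻ θ in Ioc (-Real.pi) Real.pi, G θ := setLIntegral_congr Ioo_ae_eq_Ioc
    rw [h2, VPO_un G (show -Real.pi ≤ 0 by linarith) hpi.le, VPO_un G (show (0 : ℝ) ≤ Real.pi by linarith) (show Real.pi ≤ 2 * Real.pi by linarith)]
    have h3 := VPO_tr G (2 * Real.pi) hG (-Real.pi) 0
    rw [show -Real.pi + 2 * Real.pi = Real.pi by ring, zero_add] at h3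
    rw [h3, add_comm]
  have h4 : ∫⁻ θ in Ioc 0 (4 * Real.pi), G θ = 2 * ∫⁻ θ in Ioc 0 (2 * Real.pi), G θ := by
    rw [VPO_un G (show (0 : ℝ) ≤ 2 * Real.pi by linarith) (show 2 * Real.pi ≤ 4 * Real.pi by linarith)]
    have h3 := VPO_tr G (2 * Real.pi) hG 0 (2 * Real.pi)
    rw [show 2 * Real.pi + 2 * Real.pi = 4 * Real.pi by ring, zero_add] at h3
    rw [h3]
    exact (two_mul _).symm
  have h5 : ∫⁻ θ in Ioc 0 (4 * Real.pi), G θ = 2 * ∫⁻ θ in Ioc 0 (2 * Real.pi), G (2 * θ) := by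
    have h6 : (fun x : ℝ => 2 * x) '' Ioc 0 (2 * Real.pi) = Ioc 0 (4 * Real.pi) := by
      ext x
      constructor
      · rintro ⟨y, ⟨hy1, hy2⟩, rfl⟩
        exact ⟨by show 0 < 2 * y; linarith, by show 2 * y ≤ 4 * Real.pi; linarith⟩
      · rintro ⟨hx1, hx2⟩
        exact ⟨x / 2, ⟨by linarith, by linarith⟩, by show 2 * (x / 2) = x; ring⟩
    rw [← h6, lintegral_image_eq_lintegral_abs_deriv_mul measurableSet_Ioc (f := fun x : ℝ => 2 * x) (f' := fun _ => 2)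
      (fun x _ => by simpa using ((hasDerivAt_id x).const_mul (2 : ℝ)).hasDerivWithinAt) (fun x _ y _ h => by
        have h' : 2 * x = 2 * y := h
        linarith)]
    rw [lintegral_const_mul' _ _ ENNReal.ofReal_ne_top, abs_two, ENNReal.ofReal_ofNat]
  rw [h1]
  have h6 : (2 : ENNReal) * ∫⁻ θ in Ioc 0 (2 * Real.pi), G (2 * θ) = 2 * ∫⁻ θ in Ioc 0 (2 * Real.pi), G θ := by
    rw [← h5, h4]
  exact (ENNReal.mul_right_inj (by norm_num) (by norm_num)).1 h6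

/-- the energy as radial variable -/
theorem VPO_rad (u : ℝ) (F : ℝ → ENNReal) :
    ∫⁻ E in {E : ℝ | -(u / 2) < E}, F (Real.sqrt (u + 2 * E)) = ∫⁻ ρ in Ioi (0 : ℝ), ENNReal.ofReal ρ * F ρ := by
  have h1 : (fun ρ : ℝ => (ρ ^ 2 - u) / 2) '' Ioi 0 = {E : ℝ | -(u / 2) < E} := by
    ext E
    constructor
    · rintro ⟨ρ, hρ, rfl⟩
      have hρ' : 0 < ρ := hρ
      show -(u / 2) < (ρ ^ 2 - u) / 2
      have := pow_pos hρ' 2
      linarith
    · intro hE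
      have hE' : -(u / 2) < E := hE
      have h2 : 0 < u + 2 * E := by linarith
      refine ⟨Real.sqrt (u + 2 * E), Real.sqrt_pos.2 h2, ?_⟩
      show (Real.sqrt (u + 2 * E) ^ 2 - u) / 2 = E
      rw [Real.sq_sqrt h2.le]
      ring
  rw [← h1, lintegral_image_eq_lintegral_abs_deriv_mul measurableSet_Ioi (f := fun ρ : ℝ => (ρ ^ 2 - u) / 2) (f' := fun ρ => ρ)
    (fun ρ _ => ?_) (fun x hx y hy h => ?_)]
  · refine setLIntegral_congr_fun measurableSet_Ioi fun ρ hρ => ?_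
    have hρ' : 0 < ρ := hρ
    show ENNReal.ofReal |ρ| * F (Real.sqrt (u + 2 * ((ρ ^ 2 - u) / 2))) = _
    rw [show u + 2 * ((ρ ^ 2 - u) / 2) = ρ ^ 2 by ring, Real.sqrt_sq hρ'.le, abs_of_pos hρ']
  · have h2 : HasDerivAt (fun ρ : ℝ => (ρ ^ 2 - u) / 2) ((2 : ℕ) * ρ ^ (2 - 1) / 2) ρ := ((hasDerivAt_pow 2 ρ).sub_const u).div_const 2
    have h4 : ((2 : ℕ) * ρ ^ (2 - 1) : ℝ) / 2 = ρ := by simp
    rw [h4] at h2
    exact h2.hasDerivWithinAt
  · have hx' : 0 < x := hx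
    have hy' : 0 < y := hy
    have h2 : (x ^ 2 - u) / 2 = (y ^ 2 - u) / 2 := h
    have h3 : (x - y) * (x + y) = 0 := by linear_combination 2 * h2
    rcases mul_eq_zero.1 h3 with h4 | h4
    · linarith
    · linarith

theorem VPO_proof : VPO_stmt := by
  intro u f _ hf
  have h1 : ∀ θ : ℝ, ∫⁻ E in {E : ℝ | -(u / 2) < E}, f ((Real.sqrt (u + 2 * E) : ℂ) * Complex.exp (((2 * θ : ℝ) : ℂ) * Complex.I)) =
      ∫⁻ ρ in Ioi (0 : ℝ), ENNReal.ofReal ρ * f ((ρ : ℂ) * Complex.exp (((2 * θ : ℝ) : ℂ) * Complex.I)) := fun θ =>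
    VPO_rad u fun ρ => f ((ρ : ℂ) * Complex.exp (((2 * θ : ℝ) : ℂ) * Complex.I))
  have h2 := VPO_dbl (fun α => ∫⁻ ρ in Ioi (0 : ℝ), ENNReal.ofReal ρ * f ((ρ : ℂ) * Complex.exp (((α : ℝ) : ℂ) * Complex.I))) (fun α => by
    refine lintegral_congr fun ρ => ?_
    have h3 : Complex.exp (((α + 2 * Real.pi : ℝ) : ℂ) * Complex.I) = Complex.exp ((α : ℂ) * Complex.I) := by
      push_cast
      rw [add_mul, Complex.exp_add, Complex.exp_two_pi_mul_I, mul_one]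
    rw [h3])
  have h4 : ∫⁻ θ in Ioc 0 (2 * Real.pi), ∫⁻ E in {E : ℝ | -(u / 2) < E}, f ((Real.sqrt (u + 2 * E) : ℂ) * Complex.exp (((2 * θ : ℝ) : ℂ) * Complex.I)) =
      ∫⁻ θ in Ioc 0 (2 * Real.pi), ∫⁻ ρ in Ioi (0 : ℝ), ENNReal.ofReal ρ * f ((ρ : ℂ) * Complex.exp (((2 * θ : ℝ) : ℂ) * Complex.I)) :=
    lintegral_congr fun θ => h1 θ
  rw [h4]
  refine h2.trans ?_
  rw [← Complex.lintegral_comp_polarCoord_symm f]
  have h5 : Measurable fun p : ℝ × ℝ => ENNReal.ofReal p.1 * f ((p.1 : ℂ) * Complex.exp ((p.2 : ℂ) * Complex.I)) := by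
    refine (ENNReal.measurable_ofReal.comp measurable_fst).mul (hf.comp ?_)
    have : Continuous fun p : ℝ × ℝ => (p.1 : ℂ) * Complex.exp ((p.2 : ℂ) * Complex.I) := by fun_prop
    exact this.measurable
  have h6 : polarCoord.target = Ioi (0 : ℝ) ×ˢ Ioo (-Real.pi) Real.pi := rfl
  rw [h6]
  have h7 : ∀ p : ℝ × ℝ, ENNReal.ofReal p.1 • f (Complex.polarCoord.symm p) = ENNReal.ofReal p.1 * f ((p.1 : ℂ) * Complex.exp ((p.2 : ℂ) * Complex.I)) := by
    intro p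
    rw [smul_eq_mul, Complex.polarCoord_symm_apply, Complex.exp_mul_I, Complex.ofReal_cos, Complex.ofReal_sin]
  rw [lintegral_congr h7]
  exact (setLIntegral_prod_symm (μ := (volume : Measure ℝ)) (ν := (volume : Measure ℝ)) _ h5.aemeasurable).symm

end

end Pool.Agent.VQ
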