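import Pool.Agent.helper80.VQ.SpecFL

/-!
# Project VQ (MP_07c750_an), block FL, row YPE: the linear system of the beams
-/

set_option autoImplicit false

open scoped MatrixGroups ContDiff Topology UpperHalfPlane ComplexConjugate ENNReal
open UpperHalfPlane MeasureTheory Filter Set

namespace Pool.Agent.VQ

open Pool.Agent.RS

noncomputable section

/-- pairs of matrices as functions -/
abbrev YPE_F : Type := (Fin 2 → Fin 2 → ℂ) × (Fin 2 → Fin 2 → ℂ)

/-- the linear operator of the system -/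
def YPE_A (κ : ℝ) (K : Matrix (Fin 2) (Fin 2) ℂ) : YPE_F →ₗ[ℝ] YPE_F where
  toFun x := (fun i j => x.2 i j + (κ : ℂ) * ∑ l, JJ i l * x.1 l j, fun i j => (∑ l, K i l * x.1 l j) + (κ : ℂ) * ∑ l, JJ i l * x.2 l j)
  map_add' x y := by
    refine Prod.ext ?_ ?_
    · funext i j
      simp only [Prod.fst_add, Prod.snd_add, Pi.add_apply, mul_add, Finset.sum_add_distrib]
      ring
    · funext i j
      simp only [Prod.fst_add, Prod.snd_add, Pi.add_apply, mul_add, Finset.sum_add_distrib]
      ring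
  map_smul' c x := by
    refine Prod.ext ?_ ?_
    · funext i j
      simp only [Prod.smul_fst, Prod.smul_snd, Pi.smul_apply, Complex.real_smul, RingHom.id_apply, Fin.sum_univ_two]
      ring
    · funext i j
      simp only [Prod.smul_fst, Prod.smul_snd, Pi.smul_apply, Complex.real_smul, RingHom.id_apply, Fin.sum_univ_two]
      ring

theorem YPE_proof (hLNP : LNP_stmt) : YPE_stmt := by
  intro Λ _ κ K hκ hK
  have hA : Continuous (fun q : Λ × ℝ => (LinearMap.toContinuousLinearMap (YPE_A (κ q.1 q.2) (K q.1 q.2)) : YPE_F →L[ℝ] YPE_F)) := by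
    rw [continuous_clm_apply]
    intro x
    have hκ' : Continuous fun q : Λ × ℝ => ((κ q.1 q.2 : ℝ) : ℂ) := Complex.continuous_ofReal.comp hκ
    refine Continuous.prodMk ?_ ?_
    · refine continuous_pi fun i => continuous_pi fun j => ?_
      show Continuous fun q : Λ × ℝ => x.2 i j + ((κ q.1 q.2 : ℝ) : ℂ) * ∑ l, JJ i l * x.1 l j
      exact continuous_const.add (hκ'.mul continuous_const)
    · refine continuous_pi fun i => continuous_pi fun j => ?_
      show Continuous fun q : Λ × ℝ => (∑ l, K q.1 q.2 i l * x.1 l j) + ((κ q.1 q.2 : ℝ) : ℂ) * ∑ l, JJ i l * x.2 l j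
      exact (continuous_finset_sum _ fun l _ => (hK i l).mul continuous_const).add (hκ'.mul continuous_const)
  obtain ⟨Z, hZ0, hZd, hZc⟩ := hLNP Λ YPE_F (fun p t => LinearMap.toContinuousLinearMap (YPE_A (κ p t) (K p t))) hA
  let x₀ : YPE_F := (fun i j => (1 : Matrix (Fin 2) (Fin 2) ℂ) i j, fun i j => (Complex.I • (1 : Matrix (Fin 2) (Fin 2) ℂ)) i j)
  have hd : ∀ p t, HasDerivAt (fun s => Z p s x₀) (YPE_A (κ p t) (K p t) (Z p t x₀)) t := by
    intro p t
    have h1 := (hZd p t).clm_apply (hasDerivAt_const t x₀)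
    rw [map_zero, add_zero] at h1
    exact h1
  have hd1 : ∀ p t i j, HasDerivAt (fun s => (Z p s x₀).1 i j) ((YPE_A (κ p t) (K p t) (Z p t x₀)).1 i j) t := fun p t i j =>
    hasDerivAt_pi.1 (hasDerivAt_pi.1 (hd p t).fst i) j
  have hd2 : ∀ p t i j, HasDerivAt (fun s => (Z p s x₀).2 i j) ((YPE_A (κ p t) (K p t) (Z p t x₀)).2 i j) t := fun p t i j =>
    hasDerivAt_pi.1 (hasDerivAt_pi.1 (hd p t).snd i) j
  have hc : Continuous (fun q : Λ × ℝ => Z q.1 q.2 x₀) := hZc.clm_apply continuous_const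
  refine ⟨fun p t => Matrix.of (Z p t x₀).1, fun p t => Matrix.of (Z p t x₀).2, fun p => ⟨?_, ?_⟩, fun p t i j => ?_, fun p t i j => ?_, fun i j => ?_, fun i j => ?_⟩
  · show Matrix.of (Z p 0 x₀).1 = 1
    rw [hZ0]
    rfl
  · show Matrix.of (Z p 0 x₀).2 = Complex.I • 1
    rw [hZ0]
    rfl
  · have h1 : (Matrix.of (Z p t x₀).2 + ((κ p t : ℝ) : ℂ) • (JJ * Matrix.of (Z p t x₀).1)) i j = (YPE_A (κ p t) (K p t) (Z p t x₀)).1 i j := by
      rw [Matrix.add_apply, Matrix.smul_apply, Matrix.mul_apply]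
      rfl
    rw [h1]
    exact hd1 p t i j
  · have h1 : (K p t * Matrix.of (Z p t x₀).1 + ((κ p t : ℝ) : ℂ) • (JJ * Matrix.of (Z p t x₀).2)) i j = (YPE_A (κ p t) (K p t) (Z p t x₀)).2 i j := by
      rw [Matrix.add_apply, Matrix.smul_apply, Matrix.mul_apply, Matrix.mul_apply]
      rfl
    rw [h1]
    exact hd2 p t i j
  · exact (continuous_apply j).comp ((continuous_apply i).comp (continuous_fst.comp hc))
  · exact (continuous_apply j).comp ((continuous_apply i).comp (continuous_snd.comp hc))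

end

end Pool.Agent.VQ
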