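import Pool.Agent.helper74.VQ.SpecA

/-!
# Project VQ (MP_07c750_an), row VQS: regularity of the packets and of the coefficients
-/

set_option autoImplicit false

open scoped MatrixGroups ContDiff Topology UpperHalfPlane ComplexConjugate ENNReal
open UpperHalfPlane MeasureTheory Filter Set

namespace Pool.Agent.VQ

open Pool.Agent.RS

noncomputable section

theorem VQS_cont (hcd : Continuous cd) {U : ℍ → ℝ} (hU : Continuous U) {ch : ℝ → ℝ} {ζ R : ℝ} (hb : Continuous (b0 ch ζ R)) :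
    Continuous (fun x : (SL(2, ℝ) × ℝ) × ℍ => Gp U ch ζ R x.1 x.2) := by
  have h1 : Continuous fun x : (SL(2, ℝ) × ℝ) × ℍ => cd (x.1.1⁻¹ • x.2) := hcd.comp ((continuous_fst.fst.inv).smul continuous_snd)
  have h2 : Continuous fun x : (SL(2, ℝ) × ℝ) × ℍ => rho U x.1.2 x.1.1 :=
    Real.continuous_sqrt.comp ((hU.comp (continuous_fst.fst.smul continuous_const)).add (continuous_const.mul continuous_fst.snd))
  have h3 : Continuous fun x : (SL(2, ℝ) × ℝ) × ℍ => (cd (x.1.1⁻¹ • x.2)).re := Complex.continuous_re.comp h1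
  have h4 : Continuous fun x : (SL(2, ℝ) × ℝ) × ℍ => cR ch ζ R * b0 ch ζ R (cd (x.1.1⁻¹ • x.2)) := continuous_const.mul (hb.comp h1)
  have h5 : Continuous fun x : (SL(2, ℝ) × ℝ) × ℍ => R * rho U x.1.2 x.1.1 * (cd (x.1.1⁻¹ • x.2)).re := (continuous_const.mul h2).mul h3
  exact (Complex.continuous_ofReal.comp h4).mul (Complex.continuous_exp.comp ((Complex.continuous_ofReal.comp h5).mul continuous_const))

theorem VQS_norm {U : ℍ → ℝ} {ch : ℝ → ℝ} {ζ R : ℝ} (p : SL(2, ℝ) × ℝ) (z : ℍ) (h0 : 0 ≤ b0 ch ζ R (cd (p.1⁻¹ • z))) :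
    ‖Gp U ch ζ R p z‖ = cR ch ζ R * b0 ch ζ R (cd (p.1⁻¹ • z)) := by
  unfold Gp
  rw [norm_mul, Complex.norm_exp_ofReal_mul_I, mul_one, Complex.norm_real, Real.norm_eq_abs, abs_of_nonneg (mul_nonneg (show 0 ≤ cR ch ζ R from Real.sqrt_nonneg _) h0)]

theorem VQS_eqv {Γ : Subgroup SL(2, ℝ)} {U : ℍ → ℝ} (hU : QU.Inv Γ U) {ch : ℝ → ℝ} {ζ R : ℝ} (γ : Γ) (p : SL(2, ℝ) × ℝ) (z : ℍ) :
    Gp U ch ζ R ((γ : SL(2, ℝ)) * p.1, p.2) (γ • z) = Gp U ch ζ R p z := by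
  have h1 : ((γ : SL(2, ℝ)) * p.1)⁻¹ • (γ • z) = p.1⁻¹ • z := by
    have h2 : (γ • z : ℍ) = (γ : SL(2, ℝ)) • z := rfl
    rw [h2, mul_inv_rev, mul_smul, inv_smul_smul]
  have h3 : rho U p.2 ((γ : SL(2, ℝ)) * p.1) = rho U p.2 p.1 := by
    unfold rho
    have h4 : (((γ : SL(2, ℝ)) * p.1) • I : ℍ) = γ • (p.1 • I) := mul_smul _ _ _
    rw [h4, hU.2]
  unfold Gp
  show ((cR ch ζ R * b0 ch ζ R (cd (((γ : SL(2, ℝ)) * p.1)⁻¹ • (γ • z))) : ℝ) : ℂ) *
    Complex.exp (((R * rho U p.2 ((γ : SL(2, ℝ)) * p.1) * (cd (((γ : SL(2, ℝ)) * p.1)⁻¹ • (γ • z))).re : ℝ) : ℂ) * Complex.I) = _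
  rw [h1, h3]

/-- the fundamental domain is bounded, or everything -/
theorem VQS_dich {Γ : Subgroup SL(2, ℝ)} {F : Set ℍ} (h : Dm Γ F) : (∃ b : ℝ, ∀ z ∈ F, dist z I ≤ b) ∨ F = univ := by
  rcases h with ⟨-, h⟩ | ⟨-, h⟩
  · left
    obtain ⟨K, hK, hFK⟩ := h.rel
    obtain ⟨b, hb⟩ := (Metric.isBounded_iff_subset_closedBall I).1 hK.isBounded
    exact ⟨b, fun z hz => Metric.mem_closedBall.1 (hb (hFK hz))⟩
  · exact Or.inr h

/-- invariant functions are bounded -/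
theorem VQS_bdd {Γ : Subgroup SL(2, ℝ)} {F : Set ℍ} (hF : ∀ z : ℍ, ∃! γ : Γ, γ • z ∈ F) {φ : ℍ → ℂ} (h : FH Γ F φ) :
    ∃ M : ℝ, 0 ≤ M ∧ ∀ z, ‖φ z‖ ≤ M := by
  obtain ⟨b, hb⟩ := h.supp
  obtain ⟨M, hM⟩ := (isCompact_closedBall I b).exists_bound_of_continuousOn h.cont.continuousOn
  refine ⟨max M 0, le_max_right _ _, fun z => ?_⟩
  obtain ⟨γ, hγ, -⟩ := hF z
  have hγ' : γ • z ∈ F := hγ
  rw [← h.inv γ z]
  by_cases h0 : φ (γ • z) = 0
  · rw [h0, norm_zero]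
    exact le_max_right _ _
  · exact (hM _ (Metric.mem_closedBall.2 (hb _ hγ' h0))).trans (le_max_left _ _)

/-- the properties of the packets used below -/
structure VQS_G (Γ : Subgroup SL(2, ℝ)) (C : ℝ) (G : SL(2, ℝ) × ℝ → ℍ → ℂ) : Prop where
  cont : Continuous (fun x : (SL(2, ℝ) × ℝ) × ℍ => G x.1 x.2)
  bd : ∀ p z, ‖G p z‖ ≤ C
  supp : ∀ p z, G p z ≠ 0 → dist (p.1 • I : ℍ) z ≤ 1
  eqv : ∀ (γ : Γ) (p : SL(2, ℝ) × ℝ) (z : ℍ), G ((γ : SL(2, ℝ)) * p.1, p.2) (γ • z) = G p z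

section main
variable {Γ : Subgroup SL(2, ℝ)} {C : ℝ} {G : SL(2, ℝ) × ℝ → ℍ → ℂ}

theorem VQS_C (hG : VQS_G Γ C G) : 0 ≤ C := (norm_nonneg _).trans (hG.bd (1, 0) I)

theorem VQS_Qcont (hG : VQS_G Γ C G) {φ : ℍ → ℂ} (hφ : Continuous φ) {M : ℝ} (hM0 : 0 ≤ M) (hM : ∀ z, ‖φ z‖ ≤ M) :
    Continuous fun p => ∫ z : ℍ, φ z * conj (G p z) := by
  haveI : SecondCountableTopology SL(2, ℝ) := A_GLC.2.1
  rw [continuous_iff_continuousAt]
  intro p₀
  have hc : Continuous fun p : SL(2, ℝ) × ℝ => (p.1 • I : ℍ) := continuous_fst.smul continuous_const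
  refine continuousAt_of_dominated (bound := (Metric.closedBall (p₀.1 • I : ℍ) 2).indicator fun _ => M * C) ?_ ?_ ?_ ?_
  · refine Eventually.of_forall fun p => ?_
    have h1 : Continuous fun z : ℍ => φ z * conj (G p z) :=
      hφ.mul (Complex.continuous_conj.comp (hG.cont.comp (continuous_const.prodMk continuous_id)))
    exact h1.aestronglyMeasurable
  · have h1 : ∀ᶠ p in 𝓝 p₀, dist (p.1 • I : ℍ) (p₀.1 • I : ℍ) < 1 := (hc.tendsto p₀).eventually (Metric.ball_mem_nhds _ one_pos)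
    filter_upwards [h1] with p hp
    refine Eventually.of_forall fun z => ?_
    by_cases h0 : G p z = 0
    · rw [h0, map_zero, mul_zero, norm_zero]
      exact Set.indicator_nonneg (fun _ _ => mul_nonneg hM0 (VQS_C hG)) z
    · have h2 := hG.supp p z h0
      have h3 : z ∈ Metric.closedBall (p₀.1 • I : ℍ) 2 := by
        rw [Metric.mem_closedBall]
        have h4 := dist_triangle z (p.1 • I : ℍ) (p₀.1 • I : ℍ)
        rw [dist_comm z (p.1 • I : ℍ)] at h4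
        linarith
      rw [Set.indicator_of_mem h3, norm_mul, RCLike.norm_conj]
      exact mul_le_mul (hM z) (hG.bd p z) (norm_nonneg _) hM0
  · rw [integrable_indicator_iff measurableSet_closedBall]
    exact integrableOn_const (isCompact_closedBall _ _).measure_lt_top.ne
  · refine Eventually.of_forall fun z => ?_
    have h1 : Continuous fun p : SL(2, ℝ) × ℝ => φ z * conj (G p z) :=
      continuous_const.mul (Complex.continuous_conj.comp (hG.cont.comp (continuous_id.prodMk continuous_const)))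
    exact h1.continuousAt

theorem VQS_Qbd (hG : VQS_G Γ C G) {φ : ℍ → ℂ} {M : ℝ} (hM0 : 0 ≤ M) (hM : ∀ z, ‖φ z‖ ≤ M) (p : SL(2, ℝ) × ℝ) :
    ‖∫ z : ℍ, φ z * conj (G p z)‖ ≤ M * C * (volume : Measure ℍ).real (Metric.closedBall (I : ℍ) 1) := by
  haveI : SMulInvariantMeasure SL(2, ℝ) ℍ (volume : Measure ℍ) := QU.A_INV.1
  have h1 : ∫ z in Metric.closedBall (p.1 • I : ℍ) 1, φ z * conj (G p z) = ∫ z : ℍ, φ z * conj (G p z) := by
    refine setIntegral_eq_integral_of_forall_compl_eq_zero fun z hz => ?_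
    by_cases h0 : G p z = 0
    · rw [h0, map_zero, mul_zero]
    · have h2 := hG.supp p z h0
      exact absurd (Metric.mem_closedBall'.2 h2) hz
  rw [← h1]
  have h2 : (volume : Measure ℍ) (Metric.closedBall (p.1 • I : ℍ) 1) = (volume : Measure ℍ) (Metric.closedBall (I : ℍ) 1) := by
    rw [← Metric.smul_closedBall, measure_smul]
  have h3 : (volume : Measure ℍ).real (Metric.closedBall (p.1 • I : ℍ) 1) = (volume : Measure ℍ).real (Metric.closedBall (I : ℍ) 1) := by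
    unfold Measure.real
    rw [h2]
  rw [← h3]
  refine norm_setIntegral_le_of_norm_le_const (isCompact_closedBall _ _).measure_lt_top fun z _ => ?_
  rw [norm_mul, RCLike.norm_conj]
  exact mul_le_mul (hM z) (hG.bd p z) (norm_nonneg _) hM0

theorem VQS_Qinv (hG : VQS_G Γ C G) {φ : ℍ → ℂ} (hφ : ∀ (γ : Γ) (z : ℍ), φ (γ • z) = φ z) (γ : Γ) (p : SL(2, ℝ) × ℝ) :
    ∫ z : ℍ, φ z * conj (G ((γ : SL(2, ℝ)) * p.1, p.2) z) = ∫ z : ℍ, φ z * conj (G p z) := by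
  have h1 := QU.A_INV.2.2.2.1 ℂ (γ : SL(2, ℝ)) (fun z => φ z * conj (G ((γ : SL(2, ℝ)) * p.1, p.2) z))
  rw [← h1]
  refine integral_congr_ae (Eventually.of_forall fun z => ?_)
  show φ (γ • z) * conj (G ((γ : SL(2, ℝ)) * p.1, p.2) (γ • z)) = _
  rw [hφ, hG.eqv]

theorem VQS_Q (hVDM : VDM_stmt) {F : Set ℍ} (hD : Dm Γ F) (hG : VQS_G Γ C G) {φ : ℍ → ℂ} (hφ : FH Γ F φ) :
    Continuous (fun p => ∫ z : ℍ, φ z * conj (G p z)) ∧ FP Γ F (fun p => ∫ z : ℍ, φ z * conj (G p z)) := by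
  haveI : SecondCountableTopology SL(2, ℝ) := A_GLC.2.1
  obtain ⟨-, -, hF, -, -⟩ := hVDM Γ F hD
  obtain ⟨M, hM0, hM⟩ := VQS_bdd hF hφ
  have hc := VQS_Qcont hG hφ.cont hM0 hM
  refine ⟨hc, hc.measurable, ⟨_, VQS_Qbd hG hM0 hM⟩, VQS_Qinv hG hφ.inv, ?_⟩
  rcases VQS_dich hD with ⟨b, hb⟩ | h
  · exact ⟨b, fun p hp _ => hb _ hp⟩
  · obtain ⟨b, hb⟩ := hφ.supp
    refine ⟨b + 1, fun p _ hp => ?_⟩
    have h1 : ∃ z, φ z * conj (G p z) ≠ 0 := by
      by_contra h0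
      push Not at h0
      apply hp
      show ∫ z : ℍ, φ z * conj (G p z) = 0
      rw [integral_congr_ae (Eventually.of_forall h0), integral_zero]
    obtain ⟨z, hz⟩ := h1
    have h2 := hb z (by rw [h]; trivial) (left_ne_zero_of_mul hz)
    have h3 := hG.supp p z (fun h0 => hz (by rw [h0, map_zero, mul_zero]))
    have h4 := dist_triangle (p.1 • I : ℍ) z I
    linarith

/-- the measure on the window -/
theorem VQS_fin (hVDM : VDM_stmt) {F : Set ℍ} (hD : Dm Γ F) {W : Set ℝ} (hW : MeasurableSet W) (hW1 : W ⊆ Icc (-1) 1) (z₀ : ℍ) (c : ℝ) :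
    (mP.restrict (univ ×ˢ W)) {q | dist (q.1 • I : ℍ) z₀ ≤ c} < ⊤ := by
  obtain ⟨-, -, -, -, hV⟩ := hVDM Γ F hD
  have h1 := (hV W hW).2.2.2.2.2 (c + dist z₀ I)
  have hW2 : W ∩ Icc (-1) 1 = W := inter_eq_left.2 hW1
  rw [hW2] at h1
  haveI : SecondCountableTopology SL(2, ℝ) := A_GLC.2.1
  have hc : Continuous fun p : SL(2, ℝ) × ℝ => (p.1 • I : ℍ) := continuous_fst.smul continuous_const
  have h2 : MeasurableSet {q : SL(2, ℝ) × ℝ | dist (q.1 • I : ℍ) z₀ ≤ c} := (isClosed_le (hc.dist continuous_const) continuous_const).measurableSet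
  rw [Measure.restrict_apply h2]
  refine lt_of_le_of_lt (measure_mono ?_) h1
  rintro q ⟨hq1, hq2⟩
  refine ⟨?_, hq2.2⟩
  have h3 : dist (q.1 • I : ℍ) z₀ ≤ c := hq1
  have h4 := dist_triangle (q.1 • I : ℍ) z₀ I
  show dist (q.1 • I : ℍ) I ≤ _
  linarith

theorem VQS_Scont (hVDM : VDM_stmt) {F : Set ℍ} (hD : Dm Γ F) {W : Set ℝ} (hW : MeasurableSet W) (hW1 : W ⊆ Icc (-1) 1) (hG : VQS_G Γ C G)
    {v : SL(2, ℝ) × ℝ → ℂ} (hv : Measurable v) {b : ℝ} (hb : ∀ p, ‖v p‖ ≤ b) :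
    Continuous fun z => ∫ q in univ ×ˢ W, v q * G q z ∂mP := by
  haveI : SecondCountableTopology SL(2, ℝ) := A_GLC.2.1
  have hb0 : 0 ≤ b := (norm_nonneg _).trans (hb (1, 0))
  have hc : Continuous fun p : SL(2, ℝ) × ℝ => (p.1 • I : ℍ) := continuous_fst.smul continuous_const
  rw [continuous_iff_continuousAt]
  intro z₀
  have hms : MeasurableSet {q : SL(2, ℝ) × ℝ | dist (q.1 • I : ℍ) z₀ ≤ 2} := (isClosed_le (hc.dist continuous_const) continuous_const).measurableSet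
  refine continuousAt_of_dominated (bound := {q : SL(2, ℝ) × ℝ | dist (q.1 • I : ℍ) z₀ ≤ 2}.indicator fun _ => b * C) ?_ ?_ ?_ ?_
  · refine Eventually.of_forall fun z => ?_
    have h1 : Continuous fun q : SL(2, ℝ) × ℝ => G q z := hG.cont.comp (continuous_id.prodMk continuous_const)
    exact (hv.mul h1.measurable).aestronglyMeasurable
  · filter_upwards [Metric.ball_mem_nhds z₀ one_pos] with z hz
    refine Eventually.of_forall fun q => ?_
    by_cases h0 : G q z = 0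
    · rw [h0, mul_zero, norm_zero]
      exact Set.indicator_nonneg (fun _ _ => mul_nonneg hb0 (VQS_C hG)) q
    · have h2 := hG.supp q z h0
      have h3 : q ∈ {q : SL(2, ℝ) × ℝ | dist (q.1 • I : ℍ) z₀ ≤ 2} := by
        show dist (q.1 • I : ℍ) z₀ ≤ 2
        have h4 := dist_triangle (q.1 • I : ℍ) z z₀
        have h5 : dist z z₀ < 1 := hz
        linarith
      rw [Set.indicator_of_mem h3, norm_mul]
      exact mul_le_mul (hb q) (hG.bd q z) (norm_nonneg _) hb0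
  · rw [integrable_indicator_iff hms]
    exact integrableOn_const (VQS_fin hVDM hD hW hW1 z₀ 2).ne
  · refine Eventually.of_forall fun q => ?_
    have h1 : Continuous fun z : ℍ => v q * G q z := continuous_const.mul (hG.cont.comp (continuous_const.prodMk continuous_id))
    exact h1.continuousAt

theorem VQS_S (hVDM : VDM_stmt) {F : Set ℍ} (hD : Dm Γ F) {W : Set ℝ} (hW : MeasurableSet W) (hW1 : W ⊆ Icc (-1) 1) (hG : VQS_G Γ C G)
    {v : SL(2, ℝ) × ℝ → ℂ} (hv : FP Γ F v) : FH Γ F (fun z => ∫ q in univ ×ˢ W, v q * G q z ∂mP) := by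
  haveI : SecondCountableTopology SL(2, ℝ) := A_GLC.2.1
  obtain ⟨b, hb⟩ := hv.bdd
  refine ⟨VQS_Scont hVDM hD hW hW1 hG hv.meas hb, fun γ z => ?_, ?_⟩
  · obtain ⟨-, -, -, -, hV⟩ := hVDM Γ F hD
    have h1 := (hV W hW).2.1 (γ : SL(2, ℝ))
    have h2 : MeasurableEmbedding (fun p : SL(2, ℝ) × ℝ => ((γ : SL(2, ℝ)) * p.1, p.2)) :=
      ((Homeomorph.mulLeft (γ : SL(2, ℝ))).prodCongr (Homeomorph.refl ℝ)).measurableEmbedding
    have h3 := h1.integral_comp h2 (fun q => v q * G q (γ • z))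
    rw [← h3]
    refine integral_congr_ae (Eventually.of_forall fun q => ?_)
    show v ((γ : SL(2, ℝ)) * q.1, q.2) * G ((γ : SL(2, ℝ)) * q.1, q.2) (γ • z) = v q * G q z
    rw [hv.inv, hG.eqv]
  · rcases VQS_dich hD with ⟨b, hb⟩ | h
    · exact ⟨b, fun z hz _ => hb _ hz⟩
    · obtain ⟨b, hb⟩ := hv.supp
      refine ⟨b + 1, fun z _ hz => ?_⟩
      have h1 : ∃ q, v q * G q z ≠ 0 := by
        by_contra h0
        push Not at h0
        apply hz
        show ∫ q in univ ×ˢ W, v q * G q z ∂mP = 0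
        rw [integral_congr_ae (Eventually.of_forall h0), integral_zero]
      obtain ⟨q, hq⟩ := h1
      have h2 := hb q (by rw [h]; trivial) (left_ne_zero_of_mul hq)
      have h3 := hG.supp q z (right_ne_zero_of_mul hq)
      have h4 := dist_triangle z (q.1 • I : ℍ) I
      rw [dist_comm z (q.1 • I : ℍ)] at h4
      linarith

/-- the diagonal action -/
def VQS_act (Γ : Subgroup SL(2, ℝ)) : MulAction Γ ((SL(2, ℝ) × ℝ) × ℍ) where
  smul γ x := (((γ : SL(2, ℝ)) * x.1.1, x.1.2), γ • x.2)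
  one_smul x := by
    show ((((1 : Γ) : SL(2, ℝ)) * x.1.1, x.1.2), (1 : Γ) • x.2) = x
    rw [Subgroup.coe_one, one_mul, one_smul]
  mul_smul γ γ' x := by
    show ((((γ * γ' : Γ) : SL(2, ℝ)) * x.1.1, x.1.2), (γ * γ') • x.2) = (((γ : SL(2, ℝ)) * ((γ' : SL(2, ℝ)) * x.1.1), x.1.2), γ • γ' • x.2)
    rw [Subgroup.coe_mul, mul_assoc, mul_smul]

theorem VQS_adj (hVDM : VDM_stmt) {F : Set ℍ} (hD : Dm Γ F) {W : Set ℝ} (hW : MeasurableSet W) (hW1 : W ⊆ Icc (-1) 1) (hG : VQS_G Γ C G)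
    {φ : ℍ → ℂ} (hφ : FH Γ F φ) {v : SL(2, ℝ) × ℝ → ℂ} (hv : FP Γ F v) :
    ∫ p in dG F ×ˢ W, (∫ z : ℍ, φ z * conj (G p z)) * conj (v p) ∂mP = ∫ z in F, φ z * conj (∫ q in univ ×ˢ W, v q * G q z ∂mP) := by
  haveI : SecondCountableTopology SL(2, ℝ) := A_GLC.2.1
  obtain ⟨hcount, hFm, hF, hpres, hV⟩ := hVDM Γ F hD
  obtain ⟨M, hM0, hM⟩ := VQS_bdd hF hφ
  obtain ⟨b, hb⟩ := hv.bdd
  obtain ⟨b', hb'⟩ := hv.supp
  have hb0 : 0 ≤ b := (norm_nonneg _).trans (hb (1, 0))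
  have hC0 := VQS_C hG
  have hc : Continuous fun p : SL(2, ℝ) × ℝ => (p.1 • I : ℍ) := continuous_fst.smul continuous_const
  obtain ⟨hσ, hl, -, hres, hdG, -⟩ := hV W hW
  haveI := hσ
  set μ : Measure (SL(2, ℝ) × ℝ) := mP.restrict (univ ×ˢ W) with hμ
  let K : (SL(2, ℝ) × ℝ) × ℍ → ℂ := fun x => φ x.2 * conj (G x.1 x.2) * conj (v x.1)
  have hK : ∀ x, K x = φ x.2 * conj (G x.1 x.2) * conj (v x.1) := fun _ => rfl
  have hKm : Measurable K := by
    have h1 : Continuous fun x : (SL(2, ℝ) × ℝ) × ℍ => φ x.2 * conj (G x.1 x.2) := (hφ.cont.comp continuous_snd).mul (Complex.continuous_conj.comp hG.cont)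
    exact h1.measurable.mul (Complex.continuous_conj.measurable.comp (hv.meas.comp measurable_fst))
  -- the two fundamental domains
  letI act := VQS_act Γ
  have hact : ∀ (γ : Γ) (x : (SL(2, ℝ) × ℝ) × ℍ), γ • x = (((γ : SL(2, ℝ)) * x.1.1, x.1.2), γ • x.2) := fun _ _ => rfl
  have hKi : ∀ (γ : Γ) x, K (γ • x) = K x := by
    intro γ x
    rw [hact, hK, hK]
    show φ (γ • x.2) * conj (G ((γ : SL(2, ℝ)) * x.1.1, x.1.2) (γ • x.2)) * conj (v ((γ : SL(2, ℝ)) * x.1.1, x.1.2)) = _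
    rw [hφ.inv, hG.eqv, hv.inv]
  have hpr : ∀ γ : Γ, MeasurePreserving (fun x : (SL(2, ℝ) × ℝ) × ℍ => γ • x) (μ.prod volume) (μ.prod volume) := fun γ =>
    (hl (γ : SL(2, ℝ))).prod (hpres γ)
  haveI : MeasurableConstSMul Γ ((SL(2, ℝ) × ℝ) × ℍ) := ⟨fun γ => (hpr γ).measurable⟩
  haveI : SMulInvariantMeasure Γ ((SL(2, ℝ) × ℝ) × ℍ) (μ.prod volume) := ⟨fun γ s hs => (hpr γ).measure_preimage hs.nullMeasurableSet⟩
  have hS : MeasurableSet ((dG F ×ˢ (univ : Set ℝ)) ×ˢ (univ : Set ℍ)) := (hdG.prod MeasurableSet.univ).prod MeasurableSet.univ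
  have hT : MeasurableSet ((univ : Set (SL(2, ℝ) × ℝ)) ×ˢ F) := MeasurableSet.univ.prod hFm
  have hfS : IsFundamentalDomain Γ ((dG F ×ˢ (univ : Set ℝ)) ×ˢ (univ : Set ℍ)) (μ.prod volume) := by
    refine IsFundamentalDomain.mk' hS.nullMeasurableSet fun x => ?_
    obtain ⟨γ, hγ, hu⟩ := hF (x.1.1 • I)
    have h1 : ∀ γ : Γ, γ • x ∈ (dG F ×ˢ (univ : Set ℝ)) ×ˢ (univ : Set ℍ) ↔ γ • (x.1.1 • I : ℍ) ∈ F := by
      intro γ
      rw [hact]
      constructor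
      · intro h
        have h2 : ((γ : SL(2, ℝ)) * x.1.1) • I ∈ F := h.1.1
        rw [mul_smul] at h2
        exact h2
      · intro h
        refine ⟨⟨?_, trivial⟩, trivial⟩
        show ((γ : SL(2, ℝ)) * x.1.1) • I ∈ F
        rw [mul_smul]
        exact h
    exact ⟨γ, (h1 γ).2 hγ, fun γ' hγ' => hu γ' ((h1 γ').1 hγ')⟩
  have hfT : IsFundamentalDomain Γ ((univ : Set (SL(2, ℝ) × ℝ)) ×ˢ F) (μ.prod volume) := by
    refine IsFundamentalDomain.mk' hT.nullMeasurableSet fun x => ?_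
    obtain ⟨γ, hγ, hu⟩ := hF x.2
    exact ⟨γ, ⟨trivial, hγ⟩, fun γ' hγ' => hu γ' hγ'.2⟩
  -- integrability
  have hmsA : MeasurableSet {q : SL(2, ℝ) × ℝ | dist (q.1 • I : ℍ) I ≤ b'} := (isClosed_le (hc.dist continuous_const) continuous_const).measurableSet
  have hint : IntegrableOn K ((dG F ×ˢ (univ : Set ℝ)) ×ˢ (univ : Set ℍ)) (μ.prod volume) := by
    have hms : MeasurableSet ({q : SL(2, ℝ) × ℝ | dist (q.1 • I : ℍ) I ≤ b'} ×ˢ Metric.closedBall (I : ℍ) (b' + 1)) := hmsA.prod measurableSet_closedBall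
    have h1 : Integrable (({q : SL(2, ℝ) × ℝ | dist (q.1 • I : ℍ) I ≤ b'} ×ˢ Metric.closedBall (I : ℍ) (b' + 1)).indicator fun _ => M * C * b)
        ((μ.prod volume).restrict ((dG F ×ˢ (univ : Set ℝ)) ×ˢ (univ : Set ℍ))) := by
      refine Integrable.mono_measure ?_ Measure.restrict_le_self
      rw [integrable_indicator_iff hms]
      refine integrableOn_const ?_
      rw [Measure.prod_prod]
      exact ENNReal.mul_ne_top (VQS_fin hVDM hD hW hW1 I b').ne (isCompact_closedBall _ _).measure_lt_top.ne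
    refine h1.mono' hKm.aestronglyMeasurable ?_
    refine (ae_restrict_iff' hS).2 (Eventually.of_forall fun x hx => ?_)
    have hx1 : (x.1.1 • I : ℍ) ∈ F := hx.1.1
    by_cases h0 : K x = 0
    · rw [h0, norm_zero]
      exact Set.indicator_nonneg (fun _ _ => mul_nonneg (mul_nonneg hM0 hC0) hb0) x
    · rw [hK] at h0
      have h2 : v x.1 ≠ 0 := fun h => h0 (by rw [h, map_zero, mul_zero])
      have h3 : G x.1 x.2 ≠ 0 := fun h => h0 (by rw [h, map_zero, mul_zero, zero_mul])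
      have h4 := hb' x.1 hx1 h2
      have h5 := hG.supp _ _ h3
      have h6 : x ∈ {q : SL(2, ℝ) × ℝ | dist (q.1 • I : ℍ) I ≤ b'} ×ˢ Metric.closedBall (I : ℍ) (b' + 1) := by
        refine ⟨h4, Metric.mem_closedBall.2 ?_⟩
        have h7 := dist_triangle x.2 (x.1.1 • I : ℍ) I
        rw [dist_comm x.2 (x.1.1 • I : ℍ)] at h7
        linarith
      rw [Set.indicator_of_mem h6, hK, norm_mul, norm_mul, RCLike.norm_conj, RCLike.norm_conj]
      exact mul_le_mul (mul_le_mul (hM _) (hG.bd _ _) (norm_nonneg _) hM0) (hb _) (norm_nonneg _) (mul_nonneg hM0 hC0)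
  have hint2 : IntegrableOn K ((univ : Set (SL(2, ℝ) × ℝ)) ×ˢ F) (μ.prod volume) := (hfS.integrableOn_iff hfT hKi).1 hint
  have key := hfS.setIntegral_eq hfT hKi
  -- Fubini
  have hmS : (μ.prod (volume : Measure ℍ)).restrict ((dG F ×ˢ (univ : Set ℝ)) ×ˢ (univ : Set ℍ)) = (mP.restrict (dG F ×ˢ W)).prod volume := by
    rw [← Measure.prod_restrict, Measure.restrict_univ, hres]
  have hmT : (μ.prod (volume : Measure ℍ)).restrict ((univ : Set (SL(2, ℝ) × ℝ)) ×ˢ F) = μ.prod (volume.restrict F) := by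
    rw [← Measure.prod_restrict, Measure.restrict_univ]
  have hσ2 : SigmaFinite (mP.restrict (dG F ×ˢ W)) := by
    rw [← hres]
    infer_instance
  rw [IntegrableOn, hmS] at hint
  rw [IntegrableOn, hmT] at hint2
  rw [hmS, hmT, integral_prod _ hint, integral_prod_symm _ hint2] at key
  have e1 : ∀ p, ∫ z : ℍ, K (p, z) = (∫ z : ℍ, φ z * conj (G p z)) * conj (v p) := by
    intro p
    rw [← integral_mul_const]
  have e2 : ∀ z, ∫ q, K (q, z) ∂μ = φ z * conj (∫ q, v q * G q z ∂μ) := by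
    intro z
    rw [← integral_conj, ← integral_const_mul]
    refine integral_congr_ae (Eventually.of_forall fun q => ?_)
    show φ z * conj (G q z) * conj (v q) = φ z * conj (v q * G q z)
    rw [map_mul]
    ring
  calc ∫ p in dG F ×ˢ W, (∫ z : ℍ, φ z * conj (G p z)) * conj (v p) ∂mP = ∫ p in dG F ×ˢ W, (∫ z : ℍ, K (p, z)) ∂mP :=
        integral_congr_ae (Eventually.of_forall fun p => (e1 p).symm)
    _ = ∫ z in F, ∫ q, K (q, z) ∂μ := key
    _ = ∫ z in F, φ z * conj (∫ q, v q * G q z ∂μ) := integral_congr_ae (Eventually.of_forall fun z => e2 z)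

end main

theorem VQS_proof (hVCD : VCD_stmt) (hVBR : VBR_stmt) (hVDM : VDM_stmt) : VQS_stmt := by
  intro ch ζ hch hζ hζ1
  obtain ⟨R0, hR0, hV⟩ := hVBR ch ζ hch hζ hζ1
  obtain ⟨-, -, -, -, -, -, hcd2, hcdc, -⟩ := hVCD
  refine ⟨max R0 16, hR0.trans (le_max_left _ _), fun R Γ F U hR hD hU => ?_⟩
  have hR16 : 16 ≤ R := (le_max_right _ _).trans hR
  have hRpos : 0 < R := by linarith
  obtain ⟨hbs, hbsupp, hbb, hRζ, -, -, -, -, hcR⟩ := hV R ((le_max_left _ _).trans hR)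
  have hRζ0 : 0 < R ^ (-(1 / 2) + ζ) := Real.rpow_pos_of_pos hRpos _
  have hb1 : ∀ v, b0 ch ζ R v ≤ 1 := fun v => (hbb v).2.trans (by
    rw [Real.exp_le_one_iff, neg_nonpos]
    positivity)
  have hcR0 : 0 ≤ cR ch ζ R := Real.sqrt_nonneg _
  have hbd : ∀ p z, ‖Gp U ch ζ R p z‖ ≤ R ^ (3 / 2 : ℝ) := by
    intro p z
    rw [VQS_norm p z (hbb _).1]
    calc cR ch ζ R * b0 ch ζ R (cd (p.1⁻¹ • z)) ≤ R ^ (3 / 2 : ℝ) * 1 := mul_le_mul hcR (hb1 _) (hbb _).1 (hcR0.trans hcR)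
      _ = R ^ (3 / 2 : ℝ) := mul_one _
  have hsupp : ∀ p z, Gp U ch ζ R p z ≠ 0 → dist (p.1 • I : ℍ) z ≤ 2 * R ^ (-(1 / 2) + ζ) := by
    intro p z h0
    have h1 : b0 ch ζ R (cd (p.1⁻¹ • z)) ≠ 0 := by
      intro h1
      apply h0
      unfold Gp
      rw [h1, mul_zero, Complex.ofReal_zero, zero_mul]
    have h2 := hbsupp _ h1
    have h3 := hcd2 (p.1⁻¹ • z) (by linarith)
    have h4 : dist (p.1 • I : ℍ) z = dist (p.1⁻¹ • z) I := by
      rw [dist_comm, ← dist_smul p.1 (p.1⁻¹ • z) I, smul_inv_smul]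
    rw [h4]
    linarith
  have hc := VQS_cont hcdc hU.inv.1 hbs.continuous
  have he := fun (γ : Γ) p z => VQS_eqv hU.inv (ch := ch) (ζ := ζ) (R := R) γ p z
  have hG : VQS_G Γ (R ^ (3 / 2 : ℝ)) (Gp U ch ζ R) := ⟨hc, hbd, fun p z h => (hsupp p z h).trans (by linarith), he⟩
  have hW : MeasurableSet (Wi 2 R) := measurableSet_Icc
  have hW1 : Wi 2 R ⊆ Icc (-1) 1 := by
    have h1 : R ^ (-(1 / 4) : ℝ) ≤ 1 / 2 := by
      have h2 : R ^ (-(1 / 4) : ℝ) ≤ (16 : ℝ) ^ (-(1 / 4) : ℝ) := Real.rpow_le_rpow_of_nonpos (by norm_num) hR16 (by norm_num)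
      have h3 : (16 : ℝ) ^ (-(1 / 4) : ℝ) = 1 / 2 := by
        rw [show (16 : ℝ) = 2 ^ (4 : ℝ) by norm_num, ← Real.rpow_mul (by norm_num), show (4 : ℝ) * -(1 / 4) = -1 by norm_num, Real.rpow_neg_one]
        norm_num
      linarith
    refine Icc_subset_Icc ?_ ?_
    · linarith
    · linarith
  exact ⟨hc, fun p z => ⟨hbd p z, hsupp p z⟩, he, fun φ hφ => VQS_Q hVDM hD hG hφ, fun v hv => VQS_S hVDM hD hW hW1 hG hv,
    fun φ v hφ hv => VQS_adj hVDM hD hW hW1 hG hφ hv⟩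

end

end Pool.Agent.VQ
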